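import Mathlib

/-! MP_fe875b_lc: the k-server problem, lazy strategies, transport along maps. -/

set_option autoImplicit false

namespace Pool.Agent.KServer

open Finset

variable {M : Type*} {M' : Type*} {k : ℕ}

/-- Cost of the first `n` steps of a schedule. -/
def schedCost (D : M → M → ℝ) (S : ℕ → Fin k → M) (n : ℕ) : ℝ :=
  ∑ j ∈ range n, ∑ i : Fin k, D (S j i) (S (j + 1) i)

/-- Cost of an online strategy on a request sequence. -/
def algCost (D : M → M → ℝ) (C : List M → Fin k → M) (σ : List M) : ℝ :=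
  ∑ j ∈ range σ.length, ∑ i : Fin k, D (C (σ.take j) i) (C (σ.take (j + 1)) i)

/-- `S` is an offline schedule from `c₀` serving `σ`. -/
def Serves (c₀ : Fin k → M) (σ : List M) (S : ℕ → Fin k → M) : Prop :=
  S 0 = c₀ ∧ ∀ j : Fin σ.length, ∃ i : Fin k, S (j.val + 1) i = σ.get j

/-- Online strategies. -/
def Online (c₀ : Fin k → M) (C : List M → Fin k → M) : Prop :=
  C [] = c₀ ∧ ∀ (l : List M) (r : M), ∃ i : Fin k, C (l ++ [r]) i = r

/-- Positions of a lazy strategy; the argument is the reversed list of requests. -/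
def posR (δ : List M → Fin k) (c₀ : Fin k → M) : List M → Fin k → M
  | [] => c₀
  | (r :: l) => Function.update (posR δ c₀ l) (δ (r :: l)) r

/-- The lazy strategy given by `δ`. -/
def lazyC (δ : List M → Fin k) (c₀ : Fin k → M) (l : List M) : Fin k → M := posR δ c₀ l.reverse

theorem lazyC_nil (δ : List M → Fin k) (c₀ : Fin k → M) : lazyC δ c₀ [] = c₀ := rfl

theorem lazyC_append (δ : List M → Fin k) (c₀ : Fin k → M) (l : List M) (r : M) :
    lazyC δ c₀ (l ++ [r]) = Function.update (lazyC δ c₀ l) (δ (r :: l.reverse)) r := by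
  unfold lazyC
  rw [List.reverse_append]
  rfl

theorem online_lazy (δ : List M → Fin k) (c₀ : Fin k → M) : Online c₀ (lazyC δ c₀) :=
  ⟨rfl, fun l r => ⟨δ (r :: l.reverse), by rw [lazyC_append, Function.update_self]⟩⟩

theorem algCost_nil (D : M → M → ℝ) (C : List M → Fin k → M) : algCost D C [] = 0 := by
  simp [algCost]

theorem algCost_append (D : M → M → ℝ) (C : List M → Fin k → M) (l : List M) (r : M) :
    algCost D C (l ++ [r]) = algCost D C l + ∑ i : Fin k, D (C l i) (C (l ++ [r]) i) := by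
  unfold algCost
  rw [List.length_append, List.length_singleton, sum_range_succ]
  congr 1
  · refine sum_congr rfl fun j hj => ?_
    have hj' : j < l.length := mem_range.1 hj
    rw [List.take_append_of_le_length hj'.le, List.take_append_of_le_length hj']
  · have h1 : (l ++ [r]).take l.length = l := by simp
    have h2 : (l ++ [r]).take (l.length + 1) = l ++ [r] := by
      apply List.take_of_length_le; simp
    rw [h1, h2]

/-- Pseudo-metric axioms for a real valued distance function. -/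
structure IsDist (D : M → M → ℝ) : Prop where
  self : ∀ x, D x x = 0
  nonneg : ∀ x y, 0 ≤ D x y
  tri : ∀ x y z, D x z ≤ D x y + D y z

theorem schedCost_nonneg {D : M → M → ℝ} (hD : IsDist D) (S : ℕ → Fin k → M) (n : ℕ) :
    0 ≤ schedCost D S n :=
  sum_nonneg fun _ _ => sum_nonneg fun _ _ => hD.nonneg _ _

theorem lazy_step {D : M → M → ℝ} (hD : IsDist D) (A B : Fin k → M) (i : Fin k) (r : M) (hr : B i = r)
    (L : Fin k → M) :
    ∑ j, D (L j) (Function.update L i r j) + ∑ j, D (Function.update L i r j) (B j)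
      ≤ ∑ j, D (L j) (A j) + ∑ j, D (A j) (B j) := by
  rw [← sum_add_distrib, ← sum_add_distrib]
  refine sum_le_sum fun j _ => ?_
  by_cases h : j = i
  · subst h
    rw [Function.update_self, hr, hD.self, add_zero]
    exact hD.tri _ _ _
  · rw [Function.update_of_ne h, hD.self, zero_add]
    exact hD.tri _ _ _

/-- Every strategy can be made lazy at no cost. -/
theorem exists_lazy (hk : 0 < k) {D : M → M → ℝ} (hD : IsDist D) (c₀ : Fin k → M) (C : List M → Fin k → M)
    (hC : Online c₀ C) : ∃ δ : List M → Fin k, ∀ σ, algCost D (lazyC δ c₀) σ ≤ algCost D C σ := by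
  classical
  choose f hf using hC.2
  let δ : List M → Fin k := fun l => match l with
    | [] => ⟨0, hk⟩
    | (r :: l) => f l.reverse r
  have hδ : ∀ l r, C (l ++ [r]) (δ (r :: l.reverse)) = r := by
    intro l r
    show C (l ++ [r]) (f l.reverse.reverse r) = r
    rw [List.reverse_reverse]
    exact hf l r
  refine ⟨δ, ?_⟩
  have key : ∀ σ : List M, algCost D (lazyC δ c₀) σ + ∑ i, D (lazyC δ c₀ σ i) (C σ i) ≤ algCost D C σ := by
    intro σ
    induction σ using List.reverseRecOn with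
    | nil =>
      rw [algCost_nil, algCost_nil, lazyC_nil, hC.1]
      simp [hD.self]
    | append_singleton l r ih =>
      rw [algCost_append, algCost_append, lazyC_append]
      have h1 := lazy_step hD (C l) (C (l ++ [r])) (δ (r :: l.reverse)) r (hδ l r) (lazyC δ c₀ l)
      linarith
  intro σ
  have h1 := key σ
  have h2 : 0 ≤ ∑ i, D (lazyC δ c₀ σ i) (C σ i) := sum_nonneg fun _ _ => hD.nonneg _ _
  linarith

/-- Transport of a lazy strategy along a map. -/
def pull (φ : M → M') (δ' : List M' → Fin k) : List M → Fin k := fun l => δ' (l.map φ)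

theorem posR_pull (φ : M → M') (δ' : List M' → Fin k) (c₀ : Fin k → M) (l : List M) (i : Fin k) :
    φ (posR (pull φ δ') c₀ l i) = posR δ' (fun i => φ (c₀ i)) (l.map φ) i := by
  induction l with
  | nil => rfl
  | cons r l ih =>
    show φ (Function.update (posR (pull φ δ') c₀ l) (δ' ((r :: l).map φ)) r i) =
      Function.update (posR δ' (fun i => φ (c₀ i)) (l.map φ)) (δ' ((r :: l).map φ)) (φ r) i
    by_cases h : i = δ' ((r :: l).map φ)
    · rw [h, Function.update_self, Function.update_self]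
    · rw [Function.update_of_ne h, Function.update_of_ne h, ih]

theorem posR_mem {F : Set M} (δ : List M → Fin k) {c₀ : Fin k → M} (hc : ∀ i, c₀ i ∈ F) :
    ∀ l : List M, (∀ x ∈ l, x ∈ F) → ∀ i, posR δ c₀ l i ∈ F := by
  intro l
  induction l with
  | nil => intro _ i; exact hc i
  | cons r l ih =>
    intro h i
    show Function.update (posR δ c₀ l) (δ (r :: l)) r i ∈ F
    by_cases hi : i = δ (r :: l)
    · rw [hi, Function.update_self]; exact h r (by simp)
    · rw [Function.update_of_ne hi]; exact ih (fun x hx => h x (by simp [hx])) i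

theorem algCost_pull {F : Set M} {D : M → M → ℝ} {D' : M' → M' → ℝ} (φ : M → M') (lam : ℝ)
    (hφ : ∀ x ∈ F, ∀ y ∈ F, lam * D x y ≤ D' (φ x) (φ y)) (δ' : List M' → Fin k) {c₀ : Fin k → M}
    (hc : ∀ i, c₀ i ∈ F) (σ : List M) (hσ : ∀ x ∈ σ, x ∈ F) :
    lam * algCost D (lazyC (pull φ δ') c₀) σ ≤ algCost D' (lazyC δ' (fun i => φ (c₀ i))) (σ.map φ) := by
  unfold algCost
  rw [mul_sum, List.length_map]
  refine sum_le_sum fun j _ => ?_
  rw [mul_sum]
  refine sum_le_sum fun i _ => ?_
  have hpos : ∀ m : ℕ, lazyC δ' (fun i => φ (c₀ i)) ((σ.map φ).take m) i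
      = φ (lazyC (pull φ δ') c₀ (σ.take m) i) := by
    intro m
    unfold lazyC
    rw [posR_pull φ δ' c₀, ← List.map_take, List.map_reverse]
  have hmem : ∀ m : ℕ, lazyC (pull φ δ') c₀ (σ.take m) i ∈ F := by
    intro m
    exact posR_mem _ hc _ (fun x hx => hσ x (List.mem_of_mem_take (List.mem_reverse.1 hx))) i
  rw [hpos, hpos]
  exact hφ _ (hmem _) _ (hmem _)

theorem schedCost_map {F : Set M} {D : M → M → ℝ} {D' : M' → M' → ℝ} (φ : M → M') (lam e : ℝ)
    (hφ : ∀ x ∈ F, ∀ y ∈ F, D' (φ x) (φ y) ≤ lam * D x y + e) (S : ℕ → Fin k → M) (n : ℕ)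
    (hS : ∀ j ≤ n, ∀ i, S j i ∈ F) :
    schedCost D' (fun j i => φ (S j i)) n ≤ lam * schedCost D S n + e * (k * n) := by
  unfold schedCost
  have h1 : ∀ j ∈ range n, ∑ i : Fin k, D' (φ (S j i)) (φ (S (j + 1) i))
      ≤ lam * ∑ i : Fin k, D (S j i) (S (j + 1) i) + e * k := by
    intro j hj
    have hj' : j < n := mem_range.1 hj
    calc ∑ i : Fin k, D' (φ (S j i)) (φ (S (j + 1) i))
        ≤ ∑ i : Fin k, (lam * D (S j i) (S (j + 1) i) + e) :=
          sum_le_sum fun i _ => hφ _ (hS j hj'.le i) _ (hS (j + 1) hj' i)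
      _ = _ := by
          rw [sum_add_distrib, ← mul_sum, sum_const, card_univ, Fintype.card_fin, nsmul_eq_mul, mul_comm e]
  calc _ ≤ ∑ j ∈ range n, (lam * ∑ i : Fin k, D (S j i) (S (j + 1) i) + e * k) := sum_le_sum h1
    _ = _ := by
        rw [sum_add_distrib, ← mul_sum, sum_const, card_range, nsmul_eq_mul]; ring

theorem serves_map (φ : M → M') {c₀ : Fin k → M} {σ : List M} {S : ℕ → Fin k → M} (h : Serves c₀ σ S) :
    Serves (fun i => φ (c₀ i)) (σ.map φ) (fun j i => φ (S j i)) := by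
  refine ⟨funext fun i => by show φ (S 0 i) = φ (c₀ i); rw [h.1], fun j => ?_⟩
  obtain ⟨i, hi⟩ := h.2 ⟨j.val, by simpa using j.2⟩
  refine ⟨i, ?_⟩
  simp only [List.get_eq_getElem, List.getElem_map] at hi ⊢
  rw [hi]

/-- Compactness: strategies for finitely many conditions give a strategy. -/
theorem exists_limit (hk : 0 < k) (D : M → M → ℝ) (c₀ : Fin k → M) {ι : Type*} (σ : ι → List M) (B : ι → ℝ)
    (h : ∀ (T : Finset ι) (η : ℝ), 0 < η → ∃ δ : List M → Fin k, ∀ t ∈ T, algCost D (lazyC δ c₀) (σ t) ≤ B t + η) :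
    ∃ δ : List M → Fin k, ∀ t, algCost D (lazyC δ c₀) (σ t) ≤ B t := by
  classical
  have : Nonempty (Fin k) := ⟨⟨0, hk⟩⟩
  choose! d hd using h
  let U : Ultrafilter (Finset ι × ℕ) := Ultrafilter.of Filter.atTop
  have hU : (U : Filter (Finset ι × ℕ)) ≤ Filter.atTop := Ultrafilter.of_le _
  have hη : ∀ m : ℕ, (0 : ℝ) < 1 / ((m : ℝ) + 1) := fun m => by positivity
  have hlim : ∀ l : List M, ∃ i : Fin k, ∀ᶠ α in (U : Filter (Finset ι × ℕ)), d α.1 (1 / ((α.2 : ℝ) + 1)) l = i := by
    intro l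
    obtain ⟨i, hi⟩ := Ultrafilter.eq_pure_of_finite (U.map fun α => d α.1 (1 / ((α.2 : ℝ) + 1)) l)
    refine ⟨i, ?_⟩
    have h1 : ({i} : Set (Fin k)) ∈ U.map fun α => d α.1 (1 / ((α.2 : ℝ) + 1)) l := by
      rw [hi]; exact Set.mem_singleton i
    exact h1
  choose δ hδ using hlim
  have hpos : ∀ l : List M, ∀ᶠ α in (U : Filter (Finset ι × ℕ)),
      posR (d α.1 (1 / ((α.2 : ℝ) + 1))) c₀ l = posR δ c₀ l := by
    intro l
    induction l with
    | nil => exact Filter.Eventually.of_forall fun _ => rfl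
    | cons r l ih =>
      filter_upwards [ih, hδ (r :: l)] with α h1 h2
      show Function.update (posR (d α.1 (1 / ((α.2 : ℝ) + 1))) c₀ l) (d α.1 (1 / ((α.2 : ℝ) + 1)) (r :: l)) r =
        Function.update (posR δ c₀ l) (δ (r :: l)) r
      rw [h1, h2]
  have hcost : ∀ s : List M, ∀ᶠ α in (U : Filter (Finset ι × ℕ)),
      algCost D (lazyC (d α.1 (1 / ((α.2 : ℝ) + 1))) c₀) s = algCost D (lazyC δ c₀) s := by
    intro s
    have h1 : ∀ᶠ α in (U : Filter (Finset ι × ℕ)), ∀ j ∈ range (s.length + 2),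
        lazyC (d α.1 (1 / ((α.2 : ℝ) + 1))) c₀ (s.take j) = lazyC δ c₀ (s.take j) := by
      rw [Filter.eventually_all_finset]
      intro j _
      exact hpos _
    filter_upwards [h1] with α hα
    unfold algCost
    refine sum_congr rfl fun j hj => ?_
    have hj' := mem_range.1 hj
    rw [hα j (mem_range.2 (by omega)), hα (j + 1) (mem_range.2 (by omega))]
  refine ⟨δ, fun t => ?_⟩
  refine le_of_forall_pos_le_add fun ε hε => ?_
  obtain ⟨m, hm⟩ := exists_nat_one_div_lt hε
  have h1 : ∀ᶠ α in (U : Filter (Finset ι × ℕ)), ({t}, m) ≤ α := hU (Filter.eventually_ge_atTop _)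
  obtain ⟨α, ⟨h2, h3⟩, h4⟩ := (h1.and (hcost (σ t))).exists
  rw [← h4]
  have h5 := hd α.1 (1 / ((α.2 : ℝ) + 1)) (hη _) t (h2 (mem_singleton_self t))
  have h6 : 1 / ((α.2 : ℝ) + 1) ≤ 1 / ((m : ℝ) + 1) := by
    apply one_div_le_one_div_of_le (by positivity)
    have : (m : ℝ) ≤ α.2 := by exact_mod_cast h3
    linarith
  linarith

end Pool.Agent.KServer
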