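import Pool.Agent.Work.MP_fe875b_lc.Main

/-! MP_fe875b_lc: finite graphs. -/

set_option autoImplicit false

namespace Pool.Agent.KServer

open Finset

/-- The box graph: vertices are the points of `{0,...,2R}^m`, neighbours differ by at most one in each coordinate. -/
def boxGraph (m R : ℕ) : SimpleGraph (Fin m → Fin (2 * R + 1)) where
  Adj a b := a ≠ b ∧ ∀ i, ((a i : ℤ) - (b i : ℤ)).natAbs ≤ 1
  symm := ⟨fun a b h => ⟨h.1.symm, fun i => by have := h.2 i; omega⟩⟩
  loopless := ⟨fun a h => h.1 rfl⟩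

theorem exists_walk {m R : ℕ} (t : ℕ) :
    ∀ a b : Fin m → Fin (2 * R + 1), (∀ i, ((a i : ℤ) - (b i : ℤ)).natAbs ≤ t) →
      ∃ p : (boxGraph m R).Walk a b, p.length ≤ t := by
  induction t with
  | zero =>
    intro a b h
    have : a = b := by
      funext i
      apply Fin.ext
      have := h i
      omega
    subst this
    exact ⟨SimpleGraph.Walk.nil, le_rfl⟩
  | succ t ih =>
    intro a b h
    let z : Fin m → Fin (2 * R + 1) := fun i =>
      if h1 : (a i : ℕ) < b i then ⟨a i + 1, by have := (b i).2; omega⟩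
      else if h2 : (b i : ℕ) < a i then ⟨a i - 1, by have := (a i).2; omega⟩
      else a i
    have hz : ∀ i, ((z i : ℕ) : ℤ) = if (a i : ℕ) < b i then (a i : ℤ) + 1
        else if (b i : ℕ) < a i then (a i : ℤ) - 1 else a i := by
      intro i
      show (((if h1 : (a i : ℕ) < b i then ⟨a i + 1, by have := (b i).2; omega⟩
        else if h2 : (b i : ℕ) < a i then ⟨a i - 1, by have := (a i).2; omega⟩
        else a i : Fin (2 * R + 1)) : ℕ) : ℤ) = _
      split_ifs <;> push_cast <;> omega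
    have h1 : ∀ i, ((z i : ℤ) - (b i : ℤ)).natAbs ≤ t := by
      intro i
      rw [hz i]
      have := h i
      split_ifs <;> omega
    obtain ⟨p, hp⟩ := ih z b h1
    by_cases hab : z = a
    · refine ⟨p.copy hab rfl, ?_⟩
      rw [SimpleGraph.Walk.length_copy]
      omega
    · have hadj : (boxGraph m R).Adj a z := by
        refine ⟨fun e => hab e.symm, fun i => ?_⟩
        rw [hz i]
        split_ifs <;> omega
      refine ⟨SimpleGraph.Walk.cons hadj p, ?_⟩
      rw [SimpleGraph.Walk.length_cons]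
      omega

theorem le_walk_length {m R : ℕ} {a b : Fin m → Fin (2 * R + 1)}
    (p : (boxGraph m R).Walk a b) (i : Fin m) : ((a i : ℤ) - (b i : ℤ)).natAbs ≤ p.length := by
  induction p with
  | nil => simp
  | cons h p ih =>
    rw [SimpleGraph.Walk.length_cons]
    have := h.2 i
    omega

theorem connected_box (m R : ℕ) : (boxGraph m R).Connected := by
  have hne : Nonempty (Fin m → Fin (2 * R + 1)) := ⟨fun _ => 0⟩
  refine ⟨fun a b => ?_⟩
  obtain ⟨p, _⟩ := exists_walk (2 * R + 1) a b (fun i => by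
    have h1 := (a i).2
    have h2 := (b i).2
    omega)
  exact ⟨p⟩

theorem dist_box_le {m R : ℕ} (a b : Fin m → Fin (2 * R + 1)) (t : ℕ) :
    (boxGraph m R).dist a b ≤ t ↔ ∀ i, ((a i : ℤ) - (b i : ℤ)).natAbs ≤ t := by
  constructor
  · intro h i
    obtain ⟨p, hp⟩ := (connected_box m R).exists_walk_length_eq_dist a b
    exact (le_walk_length p i).trans (hp.le.trans h)
  · intro h
    obtain ⟨p, hp⟩ := exists_walk t a b h
    exact (SimpleGraph.dist_le p).trans hp

/-- The graph distance as a real number. -/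
noncomputable def gdist {V : Type*} (G : SimpleGraph V) (x y : V) : ℝ := (G.dist x y : ℝ)

theorem isDist_gdist {V : Type*} (G : SimpleGraph V) (hG : G.Connected) : IsDist (gdist G) where
  self x := by simp [gdist]
  nonneg x y := Nat.cast_nonneg _
  tri x y z := by
    unfold gdist
    exact_mod_cast hG.dist_triangle

/-- The metric space of a connected graph. -/
@[reducible] noncomputable def gMetric {V : Type*} (G : SimpleGraph V) (hG : G.Connected) : MetricSpace V where
  dist := gdist G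
  dist_self := (isDist_gdist G hG).self
  dist_comm x y := by simp [gdist, SimpleGraph.dist_comm]
  dist_triangle := (isDist_gdist G hG).tri
  eq_of_dist_eq_zero := by
    intro x y h
    have h1 : G.dist x y = 0 := by
      have : (G.dist x y : ℝ) = 0 := h
      exact_mod_cast this
    exact (hG.dist_eq_zero_iff).1 h1

/-- On the graph `G` with its path metric, with all `k` servers starting at `v`, there is an online strategy whose cost on
every sequence of at most `N` requests is at most `c` times the cost of every offline schedule. -/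
def StrictOn (k : ℕ) (c : ℝ) {V : Type} (G : SimpleGraph V) (v : V) (N : ℕ) : Prop :=
  ∃ C : List V → Fin k → V, Online (fun _ => v) C ∧
    ∀ (σ : List V) (S : ℕ → Fin k → V), σ.length ≤ N → Serves (fun _ => v) σ S →
      algCost (gdist G) C σ ≤ c * schedCost (gdist G) S σ.length

theorem strict_of_box {k : ℕ} (hk : 0 < k) {c : ℝ} (hc : 0 ≤ c)
    (h : ∀ m R N : ℕ, StrictOn k c (boxGraph m R) (fun _ => ⟨R, by omega⟩) N) :
    ∃ δ : List (ℕ →₀ ℤ) → Fin k, ∀ (σ : List (ℕ →₀ ℤ)) (S : ℕ → Fin k → (ℕ →₀ ℤ)), Serves (fun _ => 0) σ S →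
      algCost supDist (lazyC δ (fun _ => 0)) σ ≤ c * schedCost supDist S σ.length := by
  classical
  suffices key : ∀ (T : Finset {p : List (ℕ →₀ ℤ) × (ℕ → Fin k → (ℕ →₀ ℤ)) // Serves (fun _ => 0) p.1 p.2}) (η : ℝ),
      0 < η → ∃ δ : List (ℕ →₀ ℤ) → Fin k, ∀ t ∈ T, algCost supDist (lazyC δ (fun _ => 0)) t.1.1
        ≤ c * schedCost supDist t.1.2 t.1.1.length + η by
    obtain ⟨δ, hδ⟩ := exists_limit (k := k) hk supDist (fun _ => 0)
      (fun t : {p : List (ℕ →₀ ℤ) × (ℕ → Fin k → (ℕ →₀ ℤ)) // Serves (fun _ => 0) p.1 p.2} => t.1.1)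
      (fun t => c * schedCost supDist t.1.2 t.1.1.length) key
    exact ⟨δ, fun σ S hS => hδ ⟨(σ, S), hS⟩⟩
  intro T η hη
  let F : Finset (ℕ →₀ ℤ) := insert 0 (T.biUnion fun t => t.1.1.toFinset ∪
    ((range (t.1.1.length + 1)) ×ˢ (univ : Finset (Fin k))).image (fun p => t.1.2 p.1 p.2))
  let N : ℕ := ∑ t ∈ T, t.1.1.length
  have hN : ∀ t ∈ T, t.1.1.length ≤ N := fun t ht =>
    single_le_sum (f := fun t : {p : List (ℕ →₀ ℤ) × (ℕ → Fin k → (ℕ →₀ ℤ)) // Serves (fun _ => 0) p.1 p.2} =>
      t.1.1.length) (fun s _ => Nat.zero_le _) ht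
  let m : ℕ := (F.biUnion fun x => x.support).sup id + 1
  have hm : ∀ x ∈ F, ∀ j, m ≤ j → x j = 0 := by
    intro x hx j hj
    by_contra hne
    have h1 : j ∈ F.biUnion fun x => x.support := mem_biUnion.2 ⟨x, hx, Finsupp.mem_support_iff.2 hne⟩
    have h2 : j ≤ (F.biUnion fun x => x.support).sup id := le_sup (f := id) h1
    have h3 : m = (F.biUnion fun x => x.support).sup id + 1 := rfl
    omega
  let R : ℕ := F.sup fun x => (range m).sup fun j => (x j).natAbs
  have hR : ∀ x ∈ F, ∀ j, (x j).natAbs ≤ R := by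
    intro x hx j
    by_cases hj : j < m
    · have h1 : (x j).natAbs ≤ (range m).sup fun j => (x j).natAbs :=
        le_sup (f := fun j => (x j).natAbs) (mem_range.2 hj)
      exact h1.trans (le_sup (f := fun x : ℕ →₀ ℤ => (range m).sup fun j => (x j).natAbs) hx)
    · rw [hm x hx j (not_lt.1 hj)]; simp
  let φ : (ℕ →₀ ℤ) → (Fin m → Fin (2 * R + 1)) := fun x i => ⟨min (x i + R).toNat (2 * R), by omega⟩
  have hκ : ∀ x ∈ F, ∀ i : Fin m, ((φ x i : ℕ) : ℤ) = x i + R := by
    intro x hx i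
    have h1 := hR x hx i
    show ((min (x i + R).toNat (2 * R) : ℕ) : ℤ) = x i + R
    omega
  have hdist : ∀ x ∈ F, ∀ y ∈ F, gdist (boxGraph m R) (φ x) (φ y) = supDist x y := by
    intro x hx y hy
    apply le_antisymm
    · obtain ⟨b, hb⟩ : ∃ b : ℕ, supDist x y = b := ⟨_, rfl⟩
      rw [hb]
      have h1 := (supDist_le_iff x y b).1 hb.le
      have h2 : (boxGraph m R).dist (φ x) (φ y) ≤ b := by
        rw [dist_box_le]
        intro i
        rw [hκ x hx, hκ y hy]
        have := h1 i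
        omega
      unfold gdist
      exact_mod_cast h2
    · unfold gdist
      rw [supDist_le_iff]
      intro j
      by_cases hj : j < m
      · have h1 := (dist_box_le (φ x) (φ y) _).1 le_rfl ⟨j, hj⟩
        rw [hκ x hx, hκ y hy] at h1
        have e : x ((⟨j, hj⟩ : Fin m) : ℕ) = x j := rfl
        have e2 : y ((⟨j, hj⟩ : Fin m) : ℕ) = y j := rfl
        rw [e, e2] at h1
        omega
      · rw [hm x hx j (not_lt.1 hj), hm y hy j (not_lt.1 hj)]; simp
  have hφ0 : (fun _ => (⟨R, by omega⟩ : Fin (2 * R + 1))) = φ 0 := by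
    funext i
    apply Fin.ext
    show R = min (((0 : ℕ →₀ ℤ) i) + R).toNat (2 * R)
    rw [Finsupp.coe_zero, Pi.zero_apply]
    omega
  obtain ⟨C, hC, hcomp⟩ := h m R N
  rw [hφ0] at hC hcomp
  obtain ⟨δ', hδ'⟩ := exists_lazy hk (isDist_gdist _ (connected_box m R)) _ C hC
  refine ⟨pull φ δ', fun t ht => ?_⟩
  have hσF : ∀ x ∈ t.1.1, x ∈ (F : Set (ℕ →₀ ℤ)) := by
    intro x hx
    refine mem_insert_of_mem (mem_biUnion.2 ⟨t, ht, mem_union_left _ (List.mem_toFinset.2 hx)⟩)
  have hSF : ∀ j ≤ t.1.1.length, ∀ i, t.1.2 j i ∈ (F : Set (ℕ →₀ ℤ)) := by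
    intro j hj i
    refine mem_insert_of_mem (mem_biUnion.2 ⟨t, ht, mem_union_right _ (mem_image.2 ⟨(j, i), ?_, rfl⟩)⟩)
    exact mem_product.2 ⟨mem_range.2 (by omega), mem_univ _⟩
  have h0F : (0 : ℕ →₀ ℤ) ∈ (F : Set (ℕ →₀ ℤ)) := mem_insert_self _ _
  have h1 := algCost_pull (F := (F : Set (ℕ →₀ ℤ))) (D := supDist) (D' := gdist (boxGraph m R)) φ 1
    (fun x hx y hy => by rw [hdist x hx y hy, one_mul]) δ' (c₀ := fun _ => 0) (fun _ => h0F) t.1.1 hσF
  have h2 := schedCost_map (F := (F : Set (ℕ →₀ ℤ))) (D := supDist) (D' := gdist (boxGraph m R)) φ 1 0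
    (fun x hx y hy => by rw [hdist x hx y hy, one_mul, add_zero]) t.1.2 t.1.1.length hSF
  have h3 := serves_map φ t.2
  have h4 := hcomp (t.1.1.map φ) _ (by rw [List.length_map]; exact hN t ht) h3
  rw [List.length_map] at h4
  have h5 := hδ' (t.1.1.map φ)
  rw [one_mul] at h1
  rw [one_mul, zero_mul, add_zero] at h2
  have h6 := mul_le_mul_of_nonneg_left h2 hc
  linarith

end Pool.Agent.KServer
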