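import Pool.Agent.Work.MP_fe875b_lc.Box

/-! MP_fe875b_lc: reduction to graphs of maximum degree three and large girth. -/

set_option autoImplicit false

namespace Pool.Agent.KServer

open Finset

section Trail

variable {W : Type*} {H : SimpleGraph W}

theorem trail_bound (ψ : W → ℤ) (ε : Sym2 W) (D β : ℕ) {u v : W} (p : H.Walk u v) :
    p.edges.Nodup →
    (∀ a b, H.Adj a b → s(a, b) ∈ p.edges → s(a, b) ≠ ε → (ψ a - ψ b).natAbs ≤ β) →
    (∀ a b, H.Adj a b → s(a, b) = ε → D ≤ (ψ a - ψ b).natAbs) →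
    (ε ∉ p.edges → (ψ u - ψ v).natAbs ≤ β * p.length) ∧
    (ε ∈ p.edges → D ≤ (ψ u - ψ v).natAbs + β * (p.length - 1)) := by
  induction p with
  | nil =>
    intro _ _ _
    simp
  | @cons u w v h q ih =>
    intro hnd h1 h2
    rw [SimpleGraph.Walk.edges_cons, List.nodup_cons] at hnd
    have h1' : ∀ a b, H.Adj a b → s(a, b) ∈ q.edges → s(a, b) ≠ ε → (ψ a - ψ b).natAbs ≤ β :=
      fun a b hab hm hne => h1 a b hab (by rw [SimpleGraph.Walk.edges_cons]; exact List.mem_cons_of_mem _ hm) hne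
    obtain ⟨i1, i2⟩ := ih hnd.2 h1' h2
    rw [SimpleGraph.Walk.edges_cons, SimpleGraph.Walk.length_cons]
    constructor
    · intro hε
      rw [List.mem_cons, not_or] at hε
      have h3 := i1 hε.2
      have h4 := h1 u w h (by rw [SimpleGraph.Walk.edges_cons]; exact List.mem_cons_self) (fun e => hε.1 e.symm)
      rw [Nat.mul_add, Nat.mul_one]
      omega
    · intro hε
      by_cases he : ε = s(u, w)
      · have h3 : ε ∉ q.edges := by rw [he]; exact hnd.1
        have h4 := i1 h3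
        have h5 := h2 u w h he.symm
        have e : q.length + 1 - 1 = q.length := by omega
        rw [e]
        omega
      · have h3 : ε ∈ q.edges := by
          rcases List.mem_cons.1 hε with h | h
          · exact absurd h he
          · exact h
        have h4 := i2 h3
        have h5 := h1 u w h (by rw [SimpleGraph.Walk.edges_cons]; exact List.mem_cons_self) (fun e => he e.symm)
        have h6 : 1 ≤ q.length := by
          rw [← SimpleGraph.Walk.length_edges]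
          exact List.length_pos_of_mem h3
        obtain ⟨m, hm⟩ : ∃ m, q.length = m + 1 := ⟨q.length - 1, by omega⟩
        rw [hm] at h4 ⊢
        have e1 : m + 1 - 1 = m := by omega
        have e2 : m + 1 + 1 - 1 = m + 1 := by omega
        rw [e1] at h4
        rw [e2, Nat.mul_add, Nat.mul_one]
        omega

theorem cycle_bound (ψ : W → ℤ) (ε : Sym2 W) (D β : ℕ) {u : W} (p : H.Walk u u) (hp : p.edges.Nodup)
    (hε : ε ∈ p.edges)
    (h1 : ∀ a b, H.Adj a b → s(a, b) ∈ p.edges → s(a, b) ≠ ε → (ψ a - ψ b).natAbs ≤ β)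
    (h2 : ∀ a b, H.Adj a b → s(a, b) = ε → D ≤ (ψ a - ψ b).natAbs) : D ≤ β * (p.length - 1) := by
  have := (trail_bound ψ ε D β p hp h1 h2).2 hε
  simpa using this

end Trail

variable {V : Type} {n : ℕ}

/-- Every vertex is replaced by a path of `n` vertices, every edge by a path of `2 * L + 1` edges. -/
def expand (G : SimpleGraph V) (e : V ≃ Fin n) (L : ℕ) : SimpleGraph (V × Fin n × Fin (L + 1)) where
  Adj a b :=
    (a.1 = b.1 ∧ a.2.1 = b.2.1 ∧ ((a.2.2 : ℕ) + 1 = b.2.2 ∨ (b.2.2 : ℕ) + 1 = a.2.2)) ∨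
    (a.1 = b.1 ∧ (a.2.2 : ℕ) = 0 ∧ (b.2.2 : ℕ) = 0 ∧ ((a.2.1 : ℕ) + 1 = b.2.1 ∨ (b.2.1 : ℕ) + 1 = a.2.1)) ∨
    (G.Adj a.1 b.1 ∧ a.2.1 = e b.1 ∧ b.2.1 = e a.1 ∧ (a.2.2 : ℕ) = L ∧ (b.2.2 : ℕ) = L)
  symm := ⟨fun a b h => by
    rcases h with ⟨h1, h2, h3⟩ | ⟨h1, h2, h3, h4⟩ | ⟨h1, h2, h3, h4, h5⟩
    · exact Or.inl ⟨h1.symm, h2.symm, h3.symm⟩
    · exact Or.inr (Or.inl ⟨h1.symm, h3, h2, h4.symm⟩)
    · exact Or.inr (Or.inr ⟨h1.symm, h3, h2, h5, h4⟩)⟩
  loopless := ⟨fun a h => by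
    rcases h with ⟨_, _, h3⟩ | ⟨_, _, _, h4⟩ | ⟨h1, _⟩
    · omega
    · omega
    · exact G.irrefl h1⟩

theorem expand_down (G : SimpleGraph V) (e : V ≃ Fin n) (L : ℕ) (x : V) (j : Fin n) (t : ℕ) :
    ∀ ht : t < L + 1, ∃ p : (expand G e L).Walk (x, j, ⟨t, ht⟩) (x, j, 0), p.length ≤ t := by
  induction t with
  | zero => intro ht; exact ⟨SimpleGraph.Walk.nil, le_rfl⟩
  | succ t ih =>
    intro ht
    obtain ⟨p, hp⟩ := ih (by omega)
    have hadj : (expand G e L).Adj (x, j, ⟨t + 1, ht⟩) (x, j, ⟨t, by omega⟩) :=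
      Or.inl ⟨rfl, rfl, Or.inr rfl⟩
    refine ⟨SimpleGraph.Walk.cons hadj p, ?_⟩
    rw [SimpleGraph.Walk.length_cons]; omega

theorem expand_port (G : SimpleGraph V) (e : V ≃ Fin n) (L : ℕ) (x : V) (t : ℕ) :
    ∀ i j : Fin n, (i : ℕ) + t = j →
      ∃ p : (expand G e L).Walk (x, i, 0) (x, j, 0), p.length ≤ t := by
  induction t with
  | zero =>
    intro i j h
    have : i = j := Fin.ext (by omega)
    subst this
    exact ⟨SimpleGraph.Walk.nil, le_rfl⟩
  | succ t ih =>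
    intro i j h
    have hi : (i : ℕ) + 1 < n := by have := j.2; omega
    obtain ⟨p, hp⟩ := ih ⟨i + 1, hi⟩ j (by show (i : ℕ) + 1 + t = j; omega)
    have hadj : (expand G e L).Adj (x, i, 0) (x, ⟨i + 1, hi⟩, 0) :=
      Or.inr (Or.inl ⟨rfl, rfl, rfl, Or.inl rfl⟩)
    refine ⟨SimpleGraph.Walk.cons hadj p, ?_⟩
    rw [SimpleGraph.Walk.length_cons]; omega

theorem expand_port' (G : SimpleGraph V) (e : V ≃ Fin n) (L : ℕ) (x : V) (i j : Fin n) :
    ∃ p : (expand G e L).Walk (x, i, 0) (x, j, 0), p.length ≤ n := by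
  rcases le_total (i : ℕ) j with h | h
  · obtain ⟨p, hp⟩ := expand_port G e L x (j - i) i j (by omega)
    exact ⟨p, by have := j.2; omega⟩
  · obtain ⟨p, hp⟩ := expand_port G e L x (i - j) j i (by omega)
    exact ⟨p.reverse, by rw [SimpleGraph.Walk.length_reverse]; have := i.2; omega⟩

theorem expand_edge (G : SimpleGraph V) (e : V ≃ Fin n) (L : ℕ) {x y : V} (h : G.Adj x y) (i j : Fin n) :
    ∃ p : (expand G e L).Walk (x, i, 0) (y, j, 0), p.length ≤ 2 * L + 1 + 2 * n := by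
  obtain ⟨p1, h1⟩ := expand_port' G e L x i (e y)
  obtain ⟨p2, h2⟩ := expand_down G e L x (e y) L (by omega)
  have hadj : (expand G e L).Adj (x, e y, ⟨L, by omega⟩) (y, e x, ⟨L, by omega⟩) :=
    Or.inr (Or.inr ⟨h, rfl, rfl, rfl, rfl⟩)
  obtain ⟨p3, h3⟩ := expand_down G e L y (e x) L (by omega)
  obtain ⟨p4, h4⟩ := expand_port' G e L y (e x) j
  have h2' : p2.reverse.length ≤ L := by rw [SimpleGraph.Walk.length_reverse]; exact h2
  have h3' : (SimpleGraph.Walk.cons hadj p3).length ≤ L + 1 := by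
    rw [SimpleGraph.Walk.length_cons]; omega
  obtain ⟨p5, h5⟩ : ∃ p : (expand G e L).Walk (x, i, 0) (x, e y, ⟨L, by omega⟩), p.length ≤ n + L :=
    ⟨p1.append p2.reverse, by rw [SimpleGraph.Walk.length_append]; omega⟩
  obtain ⟨p6, h6⟩ : ∃ p : (expand G e L).Walk (x, e y, ⟨L, by omega⟩) (y, j, 0), p.length ≤ L + 1 + n :=
    ⟨(SimpleGraph.Walk.cons hadj p3).append p4, by rw [SimpleGraph.Walk.length_append]; omega⟩
  exact ⟨p5.append p6, by rw [SimpleGraph.Walk.length_append]; omega⟩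

theorem expand_walk (G : SimpleGraph V) (e : V ≃ Fin n) (L : ℕ) {x y : V} (p : G.Walk x y) (i : Fin n) :
    ∃ q : (expand G e L).Walk (x, i, 0) (y, i, 0), q.length ≤ (2 * L + 1 + 2 * n) * p.length := by
  induction p with
  | nil => exact ⟨SimpleGraph.Walk.nil, by simp⟩
  | cons h p ih =>
    obtain ⟨q, hq⟩ := ih
    obtain ⟨q', hq'⟩ := expand_edge G e L h i i
    refine ⟨q'.append q, ?_⟩
    rw [SimpleGraph.Walk.length_append, SimpleGraph.Walk.length_cons, Nat.mul_add, Nat.mul_one]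
    omega

theorem expand_connected (G : SimpleGraph V) (hG : G.Connected) (e : V ≃ Fin n) (L : ℕ) :
    (expand G e L).Connected := by
  obtain ⟨x₀⟩ := hG.nonempty
  have hne : Nonempty (V × Fin n × Fin (L + 1)) := ⟨(x₀, e x₀, 0)⟩
  refine ⟨fun a b => ?_⟩
  obtain ⟨x, i, t⟩ := a
  obtain ⟨y, j, s⟩ := b
  obtain ⟨p1, _⟩ := expand_down G e L x i t t.2
  obtain ⟨p2, _⟩ := expand_down G e L y j s s.2
  obtain ⟨p⟩ := hG.preconnected x y
  obtain ⟨q, _⟩ := expand_walk G e L p i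
  obtain ⟨q2, _⟩ := expand_port' G e L y i j
  exact ⟨((p1.append q).append q2).append p2.reverse⟩

/-- Lower bound function for distances in `expand`. -/
noncomputable def hfun (G : SimpleGraph V) (e : V ≃ Fin n) (L : ℕ) (z : V) (a : V × Fin n × Fin (L + 1)) : ℤ :=
  open Classical in
  if G.Adj a.1 (e.symm a.2.1) then
    min ((2 * L + 1) * (G.dist z a.1 : ℤ) + (a.2.2 : ℕ))
      ((2 * L + 1) * (G.dist z (e.symm a.2.1) : ℤ) + (2 * L + 1) - (a.2.2 : ℕ))
  else (2 * L + 1) * (G.dist z a.1 : ℤ) + (a.2.2 : ℕ)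

theorem hfun_zero (G : SimpleGraph V) (hG : G.Connected) (e : V ≃ Fin n) (L : ℕ) (z x : V) (i : Fin n)
    (t : Fin (L + 1)) (ht : (t : ℕ) = 0) : hfun G e L z (x, i, t) = (2 * L + 1) * (G.dist z x : ℤ) := by
  unfold hfun
  simp only [ht, Nat.cast_zero, add_zero, sub_zero]
  split_ifs with h
  · apply min_eq_left
    have h1 : G.dist z x ≤ G.dist z (e.symm i) + 1 := by
      calc G.dist z x ≤ G.dist z (e.symm i) + G.dist (e.symm i) x := hG.dist_triangle
        _ = _ := by rw [SimpleGraph.dist_eq_one_iff_adj.2 h.symm]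
    have h2 : (G.dist z x : ℤ) ≤ G.dist z (e.symm i) + 1 := by exact_mod_cast h1
    nlinarith
  · rfl

theorem hfun_adj (G : SimpleGraph V) (hG : G.Connected) (e : V ≃ Fin n) (L : ℕ) (z : V)
    {a b : V × Fin n × Fin (L + 1)} (h : (expand G e L).Adj a b) :
    (hfun G e L z a - hfun G e L z b).natAbs ≤ 1 := by
  obtain ⟨x, i, t⟩ := a
  obtain ⟨y, j, s⟩ := b
  rcases h with ⟨h1, h2, h3⟩ | ⟨h1, h2, h3, h4⟩ | ⟨h1, h2, h3, h4, h5⟩
  · simp only at h1 h2 h3
    subst h1 h2
    unfold hfun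
    simp only
    split_ifs with h
    · have key : ∀ (A B : ℤ) (t s : ℕ), (t + 1 = s ∨ s + 1 = t) →
          (min (A + t) (B - t) - min (A + s) (B - s)).natAbs ≤ 1 := by
        intro A B t s h
        omega
      exact key _ _ _ _ h3
    · omega
  · simp only at h1 h2 h3 h4
    subst h1
    rw [hfun_zero G hG e L z x i t h2, hfun_zero G hG e L z x j s h3]
    simp
  · simp only at h1 h2 h3 h4 h5
    have e1 : e.symm i = y := by rw [h2, Equiv.symm_apply_apply]
    have e2 : e.symm j = x := by rw [h3, Equiv.symm_apply_apply]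
    have ha : G.Adj x (e.symm i) := by rw [e1]; exact h1
    have hb : G.Adj y (e.symm j) := by rw [e2]; exact h1.symm
    unfold hfun
    simp only [if_pos ha, if_pos hb]
    rw [e1, e2, h4, h5]
    have key : ∀ A B : ℤ, (min (A + (L : ℕ)) (B + (2 * L + 1) - (L : ℕ)) -
        min (B + (L : ℕ)) (A + (2 * L + 1) - (L : ℕ))).natAbs ≤ 1 := by
      intro A B
      omega
    exact key _ _

theorem hfun_walk (G : SimpleGraph V) (hG : G.Connected) (e : V ≃ Fin n) (L : ℕ) (z : V)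
    {a b : V × Fin n × Fin (L + 1)} (p : (expand G e L).Walk a b) :
    (hfun G e L z a - hfun G e L z b).natAbs ≤ p.length := by
  induction p with
  | nil => simp
  | cons h p ih =>
    rw [SimpleGraph.Walk.length_cons]
    have := hfun_adj G hG e L z h
    omega

theorem expand_dist (G : SimpleGraph V) (hG : G.Connected) (e : V ≃ Fin n) (L : ℕ) (x y : V) (i : Fin n) :
    (2 * L + 1) * G.dist x y ≤ (expand G e L).dist (x, i, 0) (y, i, 0) ∧
    (expand G e L).dist (x, i, 0) (y, i, 0) ≤ (2 * L + 1 + 2 * n) * G.dist x y := by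
  constructor
  · obtain ⟨p, hp⟩ := (expand_connected G hG e L).exists_walk_length_eq_dist (x, i, 0) (y, i, 0)
    rw [← hp]
    have h1 := hfun_walk G hG e L x p
    rw [hfun_zero G hG e L x x i 0 rfl, hfun_zero G hG e L x y i 0 rfl, SimpleGraph.dist_self] at h1
    zify
    zify at h1
    rw [mul_zero, zero_sub, abs_neg, abs_of_nonneg (by positivity)] at h1
    exact h1
  · obtain ⟨p, hp⟩ := hG.exists_walk_length_eq_dist x y
    obtain ⟨q, hq⟩ := expand_walk G e L p i
    rw [← hp]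
    exact (SimpleGraph.dist_le q).trans hq

end Pool.Agent.KServer
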