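import Pool.Agent.Work.MP_fe875b_lc.Subcubic

/-! MP_fe875b_lc: assembly. -/

set_option autoImplicit false

namespace Pool.Agent.KServer

open Finset

theorem comp_of_online {M : Type*} {k : ℕ} {D : M → M → ℝ} {a : M} {c : ℝ} (δ : List M → Fin k)
    (h : ∀ (σ : List M) (S : ℕ → Fin k → M), Serves (fun _ => a) σ S →
      algCost D (lazyC δ (fun _ => a)) σ ≤ c * schedCost D S σ.length) : Comp D (fun _ : Fin k => a) c 0 :=
  ⟨_, online_lazy δ _, fun σ S hS => by rw [add_zero]; exact h σ S hS⟩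

theorem tfae_main {k : ℕ} (hk : 0 < k) {c : ℝ} (hc : 0 ≤ c) (g : ℕ) : List.TFAE [
    ∀ (M : Type) [MetricSpace M] (c₀ : Fin k → M), ∃ b : ℝ, Comp (fun x y => dist x y) c₀ c b,
    ∀ (M : Type) [MetricSpace M] (c₀ : Fin k → M) (a : M),
      Comp (fun x y => dist x y) c₀ c ((c + 1) * ∑ i, dist (c₀ i) a),
    Comp supDist (fun _ : Fin k => 0) c 0,
    ∀ ε : ℝ, 0 < ε → ∃ b : ℝ, Comp supDist (fun _ : Fin k => 0) (c + ε) b,
    ∀ (V : Type) [Finite V] (G : SimpleGraph V), G.Connected → ∀ (v : V) (N : ℕ), StrictOn k c G v N,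
    ∀ (V : Type) [Finite V] (G : SimpleGraph V), G.Connected → (∀ v, (G.neighborSet v).ncard ≤ 3) →
      (g : ℕ∞) ≤ G.egirth → ∀ (v : V) (N : ℕ), StrictOn k c G v N] := by
  tfae_have 1 → 4 := by
    intro h ε hε
    let _ := uMetric
    obtain ⟨b, C, hC, hb⟩ := h (ℕ →₀ ℤ) (fun _ => 0)
    refine ⟨b, C, hC, fun σ S hS => ?_⟩
    have h1 := hb σ S hS
    have h2 : (0 : ℝ) ≤ schedCost supDist S σ.length := schedCost_nonneg isDist_supDist _ _
    have h3 : algCost supDist C σ ≤ c * schedCost supDist S σ.length + b := h1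
    nlinarith [mul_nonneg hε.le h2]
  tfae_have 4 → 2 := by
    intro h M _ c₀ a
    obtain ⟨δ, hδ⟩ := strict_of_univ hk hc h M a
    exact comp_of_strict (isDist_dist M) hc a _ (online_lazy δ _) hδ dist_comm c₀
  tfae_have 2 → 1 := fun h M _ c₀ => ⟨_, h M c₀ (c₀ ⟨0, hk⟩)⟩
  tfae_have 2 → 5 := by
    intro h V _ G hG v N
    let _ := gMetric G hG
    obtain ⟨C, hC, hb⟩ := h V (fun _ => v) v
    refine ⟨C, hC, fun σ S _ hS => ?_⟩
    have h1 := hb σ S hS
    simp only [dist_self, sum_const_zero, mul_zero, add_zero] at h1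
    exact h1
  tfae_have 5 → 6 := fun h V _ G hG _ _ v N => h V G hG v N
  tfae_have 6 → 5 := by
    intro h V _ G hG v N
    have : Fintype V := Fintype.ofFinite V
    refine strict_of_expand hk hc G hG (Fintype.equivFin V) v N fun L₀ => ⟨L₀ + g + 1, by omega, ?_⟩
    exact h _ _ (expand_connected G hG _ _) (expand_degree G _ _ (by omega)) (expand_egirth G _ _ _ (by omega)) _ N
  tfae_have 5 → 3 := by
    intro h
    obtain ⟨δ, hδ⟩ := strict_of_box hk hc fun m R N => h _ (boxGraph m R) (connected_box m R) _ N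
    exact comp_of_online δ hδ
  tfae_have 3 → 4 := by
    rintro ⟨C, hC, hb⟩ ε hε
    refine ⟨0, C, hC, fun σ S hS => ?_⟩
    have h1 := hb σ S hS
    have h2 : (0 : ℝ) ≤ schedCost supDist S σ.length := schedCost_nonneg isDist_supDist _ _
    nlinarith [mul_nonneg hε.le h2]
  tfae_finish

theorem conjecture_iff :
    (∀ (M : Type) [MetricSpace M] (k : ℕ), 0 < k → ∀ c₀ : Fin k → M,
      ∃ C : List M → (Fin k → M),
        C [] = c₀ ∧
        (∀ (l : List M) (r : M), ∃ i : Fin k, C (l ++ [r]) i = r) ∧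
        ∃ α : ℝ, ∀ (σ : List M) (S : ℕ → Fin k → M),
          S 0 = c₀ →
          (∀ j : Fin σ.length, ∃ i : Fin k, S (j.val + 1) i = σ.get j) →
          (∑ j ∈ Finset.range σ.length, ∑ i : Fin k,
              dist (C (σ.take j) i) (C (σ.take (j + 1)) i))
            ≤ (k : ℝ) * (∑ j ∈ Finset.range σ.length, ∑ i : Fin k,
              dist (S j i) (S (j + 1) i)) + α) ↔
    ∀ k : ℕ, 0 < k → Comp supDist (fun _ : Fin k => 0) (k : ℝ) 0 := by
  have key : ∀ k : ℕ, 0 < k → (Comp supDist (fun _ : Fin k => 0) (k : ℝ) 0 ↔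
      ∀ (M : Type) [MetricSpace M] (c₀ : Fin k → M), ∃ b : ℝ, Comp (fun x y => dist x y) c₀ (k : ℝ) b) :=
    fun k hk => (tfae_main hk (Nat.cast_nonneg k) 0).out 2 0
  constructor
  · intro h k hk
    rw [key k hk]
    intro M _ c₀
    obtain ⟨C, h1, h2, α, h3⟩ := h M k hk c₀
    exact ⟨α, C, ⟨h1, h2⟩, fun σ S hS => h3 σ S hS.1 hS.2⟩
  · intro h M _ k hk c₀
    obtain ⟨α, C, hC, h3⟩ := (key k hk).1 (h k hk) M c₀
    exact ⟨C, hC.1, hC.2, α, fun σ S h1 h2 => h3 σ S ⟨h1, h2⟩⟩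

end Pool.Agent.KServer
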