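import Pool.Agent.Work.MP_fe875b_lc.Univ

/-! MP_fe875b_lc: from the universal space to all metric spaces. -/

set_option autoImplicit false

namespace Pool.Agent.KServer

open Finset

/-- There is a deterministic online strategy for `k` servers starting at `c₀` whose cost is at most `c` times the
cost of every offline schedule serving the same requests, plus `b`. -/
def Comp {M : Type*} {k : ℕ} (D : M → M → ℝ) (c₀ : Fin k → M) (c b : ℝ) : Prop :=
  ∃ C : List M → Fin k → M, Online c₀ C ∧ ∀ (σ : List M) (S : ℕ → Fin k → M), Serves c₀ σ S →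
    algCost D C σ ≤ c * schedCost D S σ.length + b

theorem strict_of_univ {k : ℕ} (hk : 0 < k) {c : ℝ} (hc : 0 ≤ c)
    (h : ∀ ε : ℝ, 0 < ε → ∃ b : ℝ, Comp (k := k) supDist (fun _ => 0) (c + ε) b)
    (M : Type*) [MetricSpace M] (a : M) :
    ∃ δ : List M → Fin k, ∀ (σ : List M) (S : ℕ → Fin k → M), Serves (fun _ => a) σ S →
      algCost dist (lazyC δ (fun _ => a)) σ ≤ c * schedCost dist S σ.length := by
  classical
  have hM := isDist_dist M
  suffices key : ∀ (T : Finset {p : List M × (ℕ → Fin k → M) // Serves (fun _ => a) p.1 p.2}) (η : ℝ), 0 < η →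
      ∃ δ : List M → Fin k, ∀ t ∈ T, algCost dist (lazyC δ (fun _ => a)) t.1.1
        ≤ c * schedCost dist t.1.2 t.1.1.length + η by
    obtain ⟨δ, hδ⟩ := exists_limit (k := k) hk (dist : M → M → ℝ) (fun _ => a)
      (fun t : {p : List M × (ℕ → Fin k → M) // Serves (fun _ => a) p.1 p.2} => t.1.1)
      (fun t => c * schedCost dist t.1.2 t.1.1.length) key
    exact ⟨δ, fun σ S hS => hδ ⟨(σ, S), hS⟩⟩
  intro T η hη
  set Q : ℝ := ∑ t ∈ T, schedCost dist t.1.2 t.1.1.length with hQ
  have hcost0 : ∀ t : {p : List M × (ℕ → Fin k → M) // Serves (fun _ => a) p.1 p.2},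
      0 ≤ schedCost dist t.1.2 t.1.1.length := fun t => schedCost_nonneg hM _ _
  have hQ0 : 0 ≤ Q := sum_nonneg fun t _ => hcost0 t
  have hQt : ∀ t ∈ T, schedCost dist t.1.2 t.1.1.length ≤ Q := fun t ht =>
    single_le_sum (f := fun t : {p : List M × (ℕ → Fin k → M) // Serves (fun _ => a) p.1 p.2} =>
      schedCost dist t.1.2 t.1.1.length) (fun s _ => hcost0 s) ht
  set ε : ℝ := η / (2 * (Q + 1)) with hε
  have hε0 : 0 < ε := by positivity
  obtain ⟨b, C, hC, hcomp⟩ := h ε hε0
  obtain ⟨δ', hδ'⟩ := exists_lazy hk isDist_supDist _ C hC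
  set L : ℝ := ∑ t ∈ T, (t.1.1.length : ℝ) with hL
  have hL0 : 0 ≤ L := sum_nonneg fun t _ => Nat.cast_nonneg _
  have hLt : ∀ t ∈ T, (t.1.1.length : ℝ) ≤ L := fun t ht =>
    single_le_sum (f := fun t : {p : List M × (ℕ → Fin k → M) // Serves (fun _ => a) p.1 p.2} =>
      (t.1.1.length : ℝ)) (fun s _ => Nat.cast_nonneg _) ht
  set K : ℝ := (c + ε) * (k * L) + |b| with hK
  have hK0 : 0 ≤ K := by positivity
  set lam : ℝ := 2 * K / η + 1 with hlam
  have hlam0 : 0 < lam := by positivity
  have hKlam : K ≤ lam * (η / 2) := by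
    rw [hlam]
    have : (2 * K / η + 1) * (η / 2) = K + η / 2 := by field_simp
    rw [this]; linarith
  let F : Finset M := insert a (T.biUnion fun t => t.1.1.toFinset ∪
    ((range (t.1.1.length + 1)) ×ˢ (univ : Finset (Fin k))).image (fun p => t.1.2 p.1 p.2))
  obtain ⟨φ, hφ0, hφ⟩ := exists_embed F a (mem_insert_self _ _) lam hlam0.le
  refine ⟨pull φ δ', fun t ht => ?_⟩
  have hσF : ∀ x ∈ t.1.1, x ∈ (F : Set M) := by
    intro x hx
    refine mem_insert_of_mem (mem_biUnion.2 ⟨t, ht, mem_union_left _ (List.mem_toFinset.2 hx)⟩)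
  have hSF : ∀ j ≤ t.1.1.length, ∀ i, t.1.2 j i ∈ (F : Set M) := by
    intro j hj i
    refine mem_insert_of_mem (mem_biUnion.2 ⟨t, ht, mem_union_right _ (mem_image.2 ⟨(j, i), ?_, rfl⟩)⟩)
    exact mem_product.2 ⟨mem_range.2 (by omega), mem_univ _⟩
  have haF : a ∈ (F : Set M) := mem_insert_self _ _
  have h1 := algCost_pull (F := (F : Set M)) (D := dist) (D' := supDist) φ lam
    (fun x hx y hy => (hφ x hx y hy).1) δ' (c₀ := fun _ => a) (fun _ => haF) t.1.1 hσF
  have h2 := schedCost_map (F := (F : Set M)) (D := dist) (D' := supDist) φ lam 1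
    (fun x hx y hy => (hφ x hx y hy).2) t.1.2 t.1.1.length hSF
  have h3 : Serves (fun _ => (0 : ℕ →₀ ℤ)) (t.1.1.map φ) (fun j i => φ (t.1.2 j i)) := by
    have := serves_map φ t.2
    simpa only [hφ0] using this
  have h4 := hcomp _ _ h3
  rw [List.length_map] at h4
  have h5 := hδ' (t.1.1.map φ)
  simp only [hφ0] at h1
  have hct := hcost0 t
  have h6 : lam * algCost dist (lazyC (pull φ δ') (fun _ => a)) t.1.1
      ≤ (c + ε) * (lam * schedCost dist t.1.2 t.1.1.length + 1 * (k * t.1.1.length)) + b := by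
    refine h1.trans (h5.trans (h4.trans ?_))
    have := mul_le_mul_of_nonneg_left h2 (by positivity : 0 ≤ c + ε)
    linarith
  have h7 : (c + ε) * (1 * (k * (t.1.1.length : ℝ))) + b ≤ K := by
    rw [hK]
    have hb := le_abs_self b
    have : (c + ε) * (1 * (k * (t.1.1.length : ℝ))) ≤ (c + ε) * (k * L) := by
      rw [one_mul]
      exact mul_le_mul_of_nonneg_left (mul_le_mul_of_nonneg_left (hLt t ht) (Nat.cast_nonneg _)) (by positivity)
    linarith
  have h8 : ε * schedCost dist t.1.2 t.1.1.length ≤ η / 2 := by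
    calc ε * schedCost dist t.1.2 t.1.1.length ≤ ε * (Q + 1) :=
          mul_le_mul_of_nonneg_left (by linarith [hQt t ht]) hε0.le
      _ = η / 2 := by rw [hε]; field_simp
  have h9 : lam * algCost dist (lazyC (pull φ δ') (fun _ => a)) t.1.1
      ≤ lam * (c * schedCost dist t.1.2 t.1.1.length + η) := by
    have e1 : (c + ε) * (lam * schedCost dist t.1.2 t.1.1.length + 1 * (k * t.1.1.length)) + b
        = lam * (c * schedCost dist t.1.2 t.1.1.length) + lam * (ε * schedCost dist t.1.2 t.1.1.length)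
          + ((c + ε) * (1 * (k * (t.1.1.length : ℝ))) + b) := by ring
    rw [e1] at h6
    have e2 : lam * (ε * schedCost dist t.1.2 t.1.1.length) ≤ lam * (η / 2) :=
      mul_le_mul_of_nonneg_left h8 hlam0.le
    calc _ ≤ lam * (c * schedCost dist t.1.2 t.1.1.length) + lam * (η / 2) + lam * (η / 2) := by linarith
      _ = _ := by ring
  exact le_of_mul_le_mul_left h9 hlam0

theorem comp_of_strict {k : ℕ} {M : Type*} {D : M → M → ℝ} (hD : IsDist D) {c : ℝ} (hc : 0 ≤ c) (a : M)
    (C' : List M → Fin k → M) (hC' : Online (fun _ => a) C')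
    (h : ∀ (σ : List M) (S : ℕ → Fin k → M), Serves (fun _ => a) σ S → algCost D C' σ ≤ c * schedCost D S σ.length)
    (hsymm : ∀ x y, D x y = D y x) (c₀ : Fin k → M) :
    Comp D c₀ c ((c + 1) * ∑ i, D (c₀ i) a) := by
  classical
  set X := ∑ i, D (c₀ i) a with hX
  have hX0 : 0 ≤ X := sum_nonneg fun _ _ => hD.nonneg _ _
  refine ⟨fun l => if l = [] then c₀ else C' l, ⟨by simp, fun l r => ?_⟩, fun σ S hS => ?_⟩
  · obtain ⟨i, hi⟩ := hC'.2 l r
    exact ⟨i, by simpa using hi⟩
  · rcases Nat.eq_zero_or_pos σ.length with h0 | h0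
    · have : σ = [] := List.length_eq_zero_iff.1 h0
      subst this
      rw [algCost_nil]
      have : schedCost D S 0 = 0 := by simp [schedCost]
      show 0 ≤ c * schedCost D S 0 + _
      rw [this, mul_zero, zero_add]
      positivity
    · obtain ⟨m, hm⟩ : ∃ m, σ.length = m + 1 := ⟨σ.length - 1, by omega⟩
      have hne : σ ≠ [] := by rintro rfl; simp at h0
      have htake : ∀ j, σ.take (j + 1) ≠ [] := by
        intro j; simp [hne]
      let S' : ℕ → Fin k → M := fun j => if j = 0 then fun _ => a else S j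
      have hS' : Serves (fun _ => a) σ S' := ⟨by simp [S'], fun j => by simpa [S'] using hS.2 j⟩
      have h1 : algCost D (fun l => if l = [] then c₀ else C' l) σ ≤ X + algCost D C' σ := by
        unfold algCost
        rw [hm, sum_range_succ', sum_range_succ']
        have e1 : ∀ j ∈ range m, (∑ i : Fin k, D ((fun l => if l = [] then c₀ else C' l) (σ.take (j + 1)) i)
            ((fun l => if l = [] then c₀ else C' l) (σ.take (j + 1 + 1)) i))
            = ∑ i : Fin k, D (C' (σ.take (j + 1)) i) (C' (σ.take (j + 1 + 1)) i) := by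
          intro j _
          simp only [if_neg (htake j), if_neg (htake (j + 1))]
        rw [sum_congr rfl e1]
        have e2 : (∑ i : Fin k, D ((fun l => if l = [] then c₀ else C' l) (σ.take 0) i)
            ((fun l => if l = [] then c₀ else C' l) (σ.take (0 + 1)) i))
            ≤ X + ∑ i : Fin k, D (C' (σ.take 0) i) (C' (σ.take (0 + 1)) i) := by
          simp only [if_neg (htake 0), List.take_zero]
          rw [hC'.1, hX, ← sum_add_distrib]
          exact sum_le_sum fun i _ => hD.tri _ _ _
        linarith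
      have h2 : schedCost D S' σ.length ≤ X + schedCost D S σ.length := by
        unfold schedCost
        rw [hm, sum_range_succ', sum_range_succ']
        have e1 : ∀ j ∈ range m, (∑ i : Fin k, D (S' (j + 1) i) (S' (j + 1 + 1) i))
            = ∑ i : Fin k, D (S (j + 1) i) (S (j + 1 + 1) i) := by
          intro j _
          simp [S']
        rw [sum_congr rfl e1]
        have e2 : (∑ i : Fin k, D (S' 0 i) (S' (0 + 1) i)) ≤ X + ∑ i : Fin k, D (S 0 i) (S (0 + 1) i) := by
          rw [hX, ← sum_add_distrib]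
          refine sum_le_sum fun i _ => ?_
          have e3 : S' 0 i = a := by simp [S']
          have e4 : S' (0 + 1) i = S (0 + 1) i := by simp [S']
          rw [e3, e4, hS.1, hsymm (c₀ i) a]
          exact hD.tri _ _ _
        linarith
      have h3 := h σ S' hS'
      have h4 := mul_le_mul_of_nonneg_left h2 hc
      have e : (c + 1) * X = X + c * X := by ring
      rw [e]
      linarith

end Pool.Agent.KServer
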