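import Pool.Agent.Work.MP_fe875b_lc.Expand

/-! MP_fe875b_lc: the expanded graphs have maximum degree at most three and large girth; transfer of strategies. -/

set_option autoImplicit false

namespace Pool.Agent.KServer

open Finset

variable {V : Type} {n : ℕ}

theorem ncard_le_three {W : Type*} [Finite W] {S A B C : Set W} (h : S ⊆ A ∪ B ∪ C) (hA : A.Subsingleton)
    (hB : B.Subsingleton) (hC : C.Subsingleton) : S.ncard ≤ 3 := by
  have h1 : A.ncard ≤ 1 := Set.ncard_le_one_iff_subsingleton.2 hA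
  have h2 : B.ncard ≤ 1 := Set.ncard_le_one_iff_subsingleton.2 hB
  have h3 : C.ncard ≤ 1 := Set.ncard_le_one_iff_subsingleton.2 hC
  have h4 := Set.ncard_le_ncard h (Set.toFinite _)
  have h5 := Set.ncard_union_le (A ∪ B) C
  have h6 := Set.ncard_union_le A B
  omega

theorem expand_degree [Finite V] (G : SimpleGraph V) (e : V ≃ Fin n) (L : ℕ) (hL : 1 ≤ L)
    (a : V × Fin n × Fin (L + 1)) : ((expand G e L).neighborSet a).ncard ≤ 3 := by
  obtain ⟨x, i, t⟩ := a
  by_cases ht : (t : ℕ) = 0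
  · apply ncard_le_three (A := {b | b.1 = x ∧ b.2.1 = i ∧ (b.2.2 : ℕ) = t + 1})
      (B := {b | b.1 = x ∧ (b.2.2 : ℕ) = 0 ∧ (b.2.1 : ℕ) = i + 1})
      (C := {b | b.1 = x ∧ (b.2.2 : ℕ) = 0 ∧ (b.2.1 : ℕ) + 1 = i})
    · rintro ⟨y, j, s⟩ h
      rcases h with ⟨h1, h2, h3⟩ | ⟨h1, h2, h3, h4⟩ | ⟨h1, h2, h3, h4, h5⟩
      · simp only at h1 h2 h3
        rcases h3 with h3 | h3
        · exact Or.inl (Or.inl ⟨h1.symm, h2.symm, h3.symm⟩)
        · omega
      · simp only at h1 h2 h3 h4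
        rcases h4 with h4 | h4
        · exact Or.inl (Or.inr ⟨h1.symm, h3, h4.symm⟩)
        · exact Or.inr ⟨h1.symm, h3, h4⟩
      · simp only at h4
        omega
    · rintro ⟨y, j, s⟩ ⟨h1, h2, h3⟩ ⟨y', j', s'⟩ ⟨h1', h2', h3'⟩
      simp only at h1 h2 h3 h1' h2' h3'
      subst h1 h2 h1' h2'
      have : s = s' := Fin.ext (by omega)
      rw [this]
    · rintro ⟨y, j, s⟩ ⟨h1, h2, h3⟩ ⟨y', j', s'⟩ ⟨h1', h2', h3'⟩
      simp only at h1 h2 h3 h1' h2' h3'
      subst h1 h1'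
      have : s = s' := Fin.ext (by omega)
      have h : j = j' := Fin.ext (by omega)
      rw [this, h]
    · rintro ⟨y, j, s⟩ ⟨h1, h2, h3⟩ ⟨y', j', s'⟩ ⟨h1', h2', h3'⟩
      simp only at h1 h2 h3 h1' h2' h3'
      subst h1 h1'
      have : s = s' := Fin.ext (by omega)
      have h : j = j' := Fin.ext (by omega)
      rw [this, h]
  · apply ncard_le_three (A := {b | b.1 = x ∧ b.2.1 = i ∧ (b.2.2 : ℕ) = t + 1})
      (B := {b | b.1 = x ∧ b.2.1 = i ∧ (b.2.2 : ℕ) + 1 = t})
      (C := {b | b.1 = e.symm i ∧ b.2.1 = e x ∧ (b.2.2 : ℕ) = L})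
    · rintro ⟨y, j, s⟩ h
      rcases h with ⟨h1, h2, h3⟩ | ⟨h1, h2, h3, h4⟩ | ⟨h1, h2, h3, h4, h5⟩
      · simp only at h1 h2 h3
        rcases h3 with h3 | h3
        · exact Or.inl (Or.inl ⟨h1.symm, h2.symm, h3.symm⟩)
        · exact Or.inl (Or.inr ⟨h1.symm, h2.symm, h3⟩)
      · exact absurd h2 ht
      · simp only at h1 h2 h3 h4 h5
        exact Or.inr ⟨by show y = e.symm i; rw [h2, Equiv.symm_apply_apply], h3, h5⟩
    · rintro ⟨y, j, s⟩ ⟨h1, h2, h3⟩ ⟨y', j', s'⟩ ⟨h1', h2', h3'⟩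
      simp only at h1 h2 h3 h1' h2' h3'
      subst h1 h2 h1' h2'
      have : s = s' := Fin.ext (by omega)
      rw [this]
    · rintro ⟨y, j, s⟩ ⟨h1, h2, h3⟩ ⟨y', j', s'⟩ ⟨h1', h2', h3'⟩
      simp only at h1 h2 h3 h1' h2' h3'
      subst h1 h2 h1' h2'
      have : s = s' := Fin.ext (by omega)
      rw [this]
    · rintro ⟨y, j, s⟩ ⟨h1, h2, h3⟩ ⟨y', j', s'⟩ ⟨h1', h2', h3'⟩
      simp only at h1 h2 h3 h1' h2' h3'
      subst h1 h2 h1' h2'
      have : s = s' := Fin.ext (by omega)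
      rw [this]

/-- A closed trail in the expanded graph contains a cross edge. -/
theorem exists_cross (G : SimpleGraph V) (e : V ≃ Fin n) (L : ℕ) {u : V × Fin n × Fin (L + 1)}
    (p : (expand G e L).Walk u u) (hp : p.edges.Nodup) (hne : p.edges ≠ []) :
    ∃ a b : V × Fin n × Fin (L + 1), s(a, b) ∈ p.edges ∧ G.Adj a.1 b.1 ∧ a.2.1 = e b.1 ∧ b.2.1 = e a.1 ∧
      (a.2.2 : ℕ) = L ∧ (b.2.2 : ℕ) = L := by
  by_contra hcon
  push Not at hcon
  have hno : ∀ a b : V × Fin n × Fin (L + 1), (expand G e L).Adj a b → s(a, b) ∈ p.edges →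
      (a.1 = b.1 ∧ a.2.1 = b.2.1 ∧ ((a.2.2 : ℕ) + 1 = b.2.2 ∨ (b.2.2 : ℕ) + 1 = a.2.2)) ∨
      (a.1 = b.1 ∧ (a.2.2 : ℕ) = 0 ∧ (b.2.2 : ℕ) = 0 ∧ ((a.2.1 : ℕ) + 1 = b.2.1 ∨ (b.2.1 : ℕ) + 1 = a.2.1)) := by
    intro a b hab hm
    rcases hab with h | h | ⟨h1, h2, h3, h4, h5⟩
    · exact Or.inl h
    · exact Or.inr h
    · exact absurd h5 (hcon a b hm h1 h2 h3 h4)
  by_cases hI : ∃ a b : V × Fin n × Fin (L + 1), s(a, b) ∈ p.edges ∧ a.1 = b.1 ∧ a.2.1 = b.2.1 ∧
      (a.2.2 : ℕ) + 1 = b.2.2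
  · obtain ⟨⟨x, i, t⟩, ⟨y, j, s⟩, hm, h1, h2, h3⟩ := hI
    simp only at h1 h2 h3
    subst h1 h2
    classical
    have := cycle_bound (fun c : V × Fin n × Fin (L + 1) => if c.1 = x ∧ c.2.1 = i ∧ (t : ℕ) + 1 ≤ c.2.2 then (1 : ℤ) else 0)
      s((x, i, t), (x, i, s)) 1 0 p hp hm ?_ ?_
    · omega
    · intro a b hab hab2 hne
      obtain ⟨y, j, r⟩ := a
      obtain ⟨z, l, q⟩ := b
      rcases hno _ _ hab hab2 with ⟨g1, g2, g3⟩ | ⟨g1, g2, g3, g4⟩
      · simp only at g1 g2 g3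
        subst g1 g2
        by_cases hb : y = x ∧ j = i
        · obtain ⟨rfl, rfl⟩ := hb
          have g4 : ¬ ((r : ℕ) = t ∧ (q : ℕ) = s) := by
            rintro ⟨e1, e2⟩
            apply hne
            rw [Fin.ext e1, Fin.ext e2]
          have g5 : ¬ ((r : ℕ) = s ∧ (q : ℕ) = t) := by
            rintro ⟨e1, e2⟩
            apply hne
            rw [Fin.ext e1, Fin.ext e2, Sym2.eq_swap]
          simp only [true_and]
          split_ifs <;> omega
        · have hb1 : ∀ P : Prop, ¬ (y = x ∧ j = i ∧ P) := fun P hP => hb ⟨hP.1, hP.2.1⟩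
          rw [if_neg (hb1 _), if_neg (hb1 _)]
          simp
      · simp only at g1 g2 g3 g4
        have hb1 : ∀ (v : V) (l : Fin n) , ¬ (v = x ∧ l = i ∧ (t : ℕ) + 1 ≤ 0) := fun v l hP => by omega
        simp only [g2, g3]
        rw [if_neg (hb1 _ _), if_neg (hb1 _ _)]
        simp
    · intro a b hab hab2
      have h4 : (t : ℕ) + 1 ≤ s := by omega
      rcases Sym2.eq_iff.1 hab2 with ⟨e1, e2⟩ | ⟨e1, e2⟩
      · rw [e1, e2]; simp [← h3]
      · rw [e1, e2]; simp [← h3]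
  · obtain ⟨ed, hed⟩ := List.exists_mem_of_ne_nil _ hne
    induction ed using Sym2.ind with
    | _ a b =>
    have hab : (expand G e L).Adj a b := p.adj_of_mem_edges hed
    have hII : ∃ a b : V × Fin n × Fin (L + 1), s(a, b) ∈ p.edges ∧ a.1 = b.1 ∧ (a.2.2 : ℕ) = 0 ∧
        (b.2.2 : ℕ) = 0 ∧ (a.2.1 : ℕ) + 1 = b.2.1 := by
      rcases hno _ _ hab hed with ⟨g1, g2, g3⟩ | ⟨g1, g2, g3, g4⟩
      · rcases g3 with g3 | g3
        · exact absurd ⟨a, b, hed, g1, g2, g3⟩ hI
        · exact absurd ⟨b, a, by rw [Sym2.eq_swap]; exact hed, g1.symm, g2.symm, g3⟩ hI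
      · rcases g4 with g4 | g4
        · exact ⟨a, b, hed, g1, g2, g3, g4⟩
        · exact ⟨b, a, by rw [Sym2.eq_swap]; exact hed, g1.symm, g3, g2, g4⟩
    obtain ⟨⟨x, i, t⟩, ⟨y, j, s⟩, hm, h1, h2, h3, h4⟩ := hII
    simp only at h1 h2 h3 h4
    subst h1
    classical
    have := cycle_bound (fun c : V × Fin n × Fin (L + 1) => if c.1 = x ∧ (c.2.1 : ℕ) ≤ i then (1 : ℤ) else 0)
      s((x, i, t), (x, j, s)) 1 0 p hp hm ?_ ?_
    · omega
    · intro a b hab hab2 hne
      obtain ⟨y, l, r⟩ := a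
      obtain ⟨z, o, q⟩ := b
      rcases hno _ _ hab hab2 with ⟨g1, g2, g3⟩ | ⟨g1, g2, g3, g4⟩
      · simp only at g1 g2 g3
        subst g1 g2
        simp
      · simp only at g1 g2 g3 g4
        subst g1
        by_cases hb : y = x
        · subst hb
          have g4 : ¬ ((l : ℕ) = i ∧ (o : ℕ) = j) := by
            rintro ⟨e1, e2⟩
            apply hne
            have e3 : r = t := Fin.ext (by omega)
            have e4 : q = s := Fin.ext (by omega)
            rw [Fin.ext e1, Fin.ext e2, e3, e4]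
          have g5 : ¬ ((l : ℕ) = j ∧ (o : ℕ) = i) := by
            rintro ⟨e1, e2⟩
            apply hne
            have e3 : r = s := Fin.ext (by omega)
            have e4 : q = t := Fin.ext (by omega)
            rw [Fin.ext e1, Fin.ext e2, e3, e4, Sym2.eq_swap]
          simp only [true_and]
          split_ifs <;> omega
        · simp [hb]
    · intro a b hab hab2
      rcases Sym2.eq_iff.1 hab2 with ⟨e1, e2⟩ | ⟨e1, e2⟩
      · rw [e1, e2]; simp [← h4]
      · rw [e1, e2]; simp [← h4]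

theorem expand_girth (G : SimpleGraph V) (e : V ≃ Fin n) (L : ℕ) {u : V × Fin n × Fin (L + 1)}
    (p : (expand G e L).Walk u u) (hp : p.IsCycle) : 2 * L + 2 ≤ p.length := by
  classical
  have hnd : p.edges.Nodup := hp.isTrail.edges_nodup
  have hlen : 3 ≤ p.length := hp.three_le_length
  have hne : p.edges ≠ [] := by
    intro h0
    have := SimpleGraph.Walk.length_edges p
    rw [h0, List.length_nil] at this
    omega
  obtain ⟨⟨x, i, t⟩, ⟨y, j, s⟩, hm, h1, h2, h3, h4, h5⟩ := exists_cross G e L p hnd hne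
  simp only at h1 h2 h3 h4 h5
  have hxy : x ≠ y := h1.ne
  have := cycle_bound (fun c : V × Fin n × Fin (L + 1) =>
      if c.1 = x ∧ c.2.1 = i then (L : ℤ) + 1 + (c.2.2 : ℕ)
      else if c.1 = y ∧ c.2.1 = j then (L : ℤ) - (c.2.2 : ℕ) else (L : ℤ))
    s((x, i, t), (y, j, s)) (2 * L + 1) 1 p hnd hm ?_ ?_
  · omega
  · intro a b hab hab2 hne
    obtain ⟨z, l, r⟩ := a
    obtain ⟨w, o, q⟩ := b
    have hnot : ∀ v : V, ∀ l : Fin n, ¬ ((v = x ∧ l = i) ∧ (v = y ∧ l = j)) :=
      fun v l h => hxy (h.1.1.symm.trans h.2.1)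
    rcases hab with ⟨g1, g2, g3⟩ | ⟨g1, g2, g3, g4⟩ | ⟨g1, g2, g3, g4, g5⟩
    · simp only at g1 g2 g3
      subst g1 g2
      simp only
      split_ifs <;> omega
    · simp only at g1 g2 g3 g4
      subst g1
      simp only [g2, g3]
      have hlo : l ≠ o := by
        intro h
        rw [h] at g4
        omega
      by_cases a1 : z = x ∧ l = i
      · by_cases b1 : z = x ∧ o = i
        · exact absurd (a1.2.trans b1.2.symm) hlo
        · have b2 : ¬ (z = y ∧ o = j) := fun h => hxy (a1.1.symm.trans h.1)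
          rw [if_pos a1, if_neg b1, if_neg b2]
          simp
      · by_cases b1 : z = x ∧ o = i
        · have b2 : ¬ (z = y ∧ l = j) := fun h => hxy (b1.1.symm.trans h.1)
          rw [if_neg a1, if_neg b2, if_pos b1]
          simp
        · rw [if_neg a1, if_neg b1]
          simp
    · simp only at g1 g2 g3 g4 g5
      have er : r = t := Fin.ext (by omega)
      have eq : q = s := Fin.ext (by omega)
      have er' : r = s := Fin.ext (by omega)
      have eq' : q = t := Fin.ext (by omega)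
      -- a is on the branch (x, i) or (y, j) only for the edge itself
      have A1 : ¬ (z = x ∧ l = i) := by
        rintro ⟨rfl, rfl⟩
        have hw : w = y := e.injective (g2.symm.trans h2)
        subst hw
        apply hne
        rw [g3, h3, er, eq]
      have A2 : ¬ (z = y ∧ l = j) := by
        rintro ⟨rfl, rfl⟩
        have hw : w = x := e.injective (g2.symm.trans h3)
        subst hw
        apply hne
        rw [g3, h2, er', eq', Sym2.eq_swap]
      have B1 : ¬ (w = x ∧ o = i) := by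
        rintro ⟨rfl, rfl⟩
        have hw : z = y := e.injective (g3.symm.trans h2)
        subst hw
        apply hne
        rw [g2, h3, er', eq', Sym2.eq_swap]
      have B2 : ¬ (w = y ∧ o = j) := by
        rintro ⟨rfl, rfl⟩
        have hw : z = x := e.injective (g3.symm.trans h3)
        subst hw
        apply hne
        rw [g2, h2, er, eq]
      simp only
      rw [if_neg A1, if_neg A2, if_neg B1, if_neg B2]
      simp
  · intro a b hab hab2
    have hne1 : ¬ (y = x ∧ j = i) := fun h => hxy h.1.symm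
    rcases Sym2.eq_iff.1 hab2 with ⟨e1, e2⟩ | ⟨e1, e2⟩
    · rw [e1, e2]
      simp only [and_self, if_true]
      rw [if_neg hne1, h4, h5]
      omega
    · rw [e1, e2]
      simp only [and_self, if_true]
      rw [if_neg hne1, h4, h5]
      omega

theorem expand_egirth (G : SimpleGraph V) (e : V ≃ Fin n) (L g : ℕ) (hg : g ≤ 2 * L + 2) :
    (g : ℕ∞) ≤ (expand G e L).egirth := by
  rw [SimpleGraph.le_egirth]
  intro a w hw
  have := expand_girth G e L w hw
  exact_mod_cast hg.trans this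

/-- Transfer of strategies from the expanded graphs to the original graph. -/
theorem strict_of_expand {k : ℕ} (hk : 0 < k) {c : ℝ} (hc : 0 ≤ c) (G : SimpleGraph V) (hG : G.Connected)
    (e : V ≃ Fin n) (v : V) (N : ℕ) (h : ∀ L₀ : ℕ, ∃ L, L₀ ≤ L ∧ StrictOn k c (expand G e L) (v, e v, 0) N) :
    StrictOn k c G v N := by
  classical
  suffices key : ∀ (T : Finset {p : List V × (ℕ → Fin k → V) // p.1.length ≤ N ∧ Serves (fun _ => v) p.1 p.2}) (η : ℝ),
      0 < η → ∃ δ : List V → Fin k, ∀ t ∈ T, algCost (gdist G) (lazyC δ (fun _ => v)) t.1.1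
        ≤ c * schedCost (gdist G) t.1.2 t.1.1.length + η by
    obtain ⟨δ, hδ⟩ := exists_limit (k := k) hk (gdist G) (fun _ => v)
      (fun t : {p : List V × (ℕ → Fin k → V) // p.1.length ≤ N ∧ Serves (fun _ => v) p.1 p.2} => t.1.1)
      (fun t => c * schedCost (gdist G) t.1.2 t.1.1.length) key
    exact ⟨_, online_lazy δ _, fun σ S hN hS => hδ ⟨(σ, S), hN, hS⟩⟩
  intro T η hη
  have hD := isDist_gdist G hG
  set Q : ℝ := ∑ t ∈ T, schedCost (gdist G) t.1.2 t.1.1.length with hQ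
  have hcost0 : ∀ t : {p : List V × (ℕ → Fin k → V) // p.1.length ≤ N ∧ Serves (fun _ => v) p.1 p.2},
      0 ≤ schedCost (gdist G) t.1.2 t.1.1.length := fun t => schedCost_nonneg hD _ _
  have hQ0 : 0 ≤ Q := sum_nonneg fun t _ => hcost0 t
  have hQt : ∀ t ∈ T, schedCost (gdist G) t.1.2 t.1.1.length ≤ Q := fun t ht =>
    single_le_sum (f := fun t : {p : List V × (ℕ → Fin k → V) // p.1.length ≤ N ∧ Serves (fun _ => v) p.1 p.2} =>
      schedCost (gdist G) t.1.2 t.1.1.length) (fun s _ => hcost0 s) ht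
  obtain ⟨L₀, hL₀⟩ := exists_nat_ge (c * n * Q / η)
  obtain ⟨L, hL, C', hC', hcomp⟩ := h L₀
  obtain ⟨δ', hδ'⟩ := exists_lazy hk (isDist_gdist _ (expand_connected G hG e L)) _ C' hC'
  let φ : V → V × Fin n × Fin (L + 1) := fun x => (x, e v, 0)
  refine ⟨pull φ δ', fun t ht => ?_⟩
  have hF : ∀ x : V, x ∈ (Set.univ : Set V) := fun x => Set.mem_univ x
  have h1 := algCost_pull (F := Set.univ) (D := gdist G) (D' := gdist (expand G e L)) φ (2 * L + 1)
    (fun x _ y _ => by
      have := (expand_dist G hG e L x y (e v)).1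
      unfold gdist
      exact_mod_cast this) δ' (c₀ := fun _ => v) (fun _ => hF _) t.1.1 (fun x _ => hF x)
  have h2 := schedCost_map (F := Set.univ) (D := gdist G) (D' := gdist (expand G e L)) φ (2 * L + 1 + 2 * n) 0
    (fun x _ y _ => by
      have := (expand_dist G hG e L x y (e v)).2
      unfold gdist
      rw [add_zero]
      exact_mod_cast this) t.1.2 t.1.1.length (fun j _ i => hF _)
  have h3 := serves_map φ t.2.2
  have h4 := hcomp (t.1.1.map φ) _ (by rw [List.length_map]; exact t.2.1) h3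
  rw [List.length_map] at h4
  have h5 := hδ' (t.1.1.map φ)
  rw [zero_mul, add_zero] at h2
  have h6 := mul_le_mul_of_nonneg_left h2 hc
  set A := algCost (gdist G) (lazyC (pull φ δ') fun _ => v) t.1.1 with hA
  set O := schedCost (gdist G) t.1.2 t.1.1.length with hO
  have h7 : (2 * (L : ℝ) + 1) * A ≤ c * ((2 * L + 1 + 2 * n) * O) := by linarith
  have hOQ : O ≤ Q := hQt t ht
  have hLr : (L₀ : ℝ) ≤ L := by exact_mod_cast hL
  have h8 : c * n * Q ≤ L * η := by
    have := (div_le_iff₀ hη).1 (hL₀.trans hLr)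
    exact this
  have h9 : c * n * O ≤ c * n * Q := mul_le_mul_of_nonneg_left hOQ (by positivity)
  have h10 : (2 * (L : ℝ) + 1) * A ≤ (2 * (L : ℝ) + 1) * (c * O + η) := by nlinarith
  exact le_of_mul_le_mul_left h10 (by positivity)

end Pool.Agent.KServer
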