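import Pool.Agent.Work.MP_fe875b_lc.Basic

/-! MP_fe875b_lc: finitely supported integer sequences with the supremum distance. -/

set_option autoImplicit false

namespace Pool.Agent.KServer

open Finset

/-- The supremum distance on finitely supported integer sequences. -/
noncomputable def supDist (x y : ℕ →₀ ℤ) : ℝ :=
  (((x - y).support.sup fun n => ((x - y) n).natAbs : ℕ) : ℝ)

theorem supDist_le_iff (x y : ℕ →₀ ℤ) (m : ℕ) : supDist x y ≤ m ↔ ∀ n, (x n - y n).natAbs ≤ m := by
  unfold supDist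
  rw [Nat.cast_le, Finset.sup_le_iff]
  constructor
  · intro h n
    by_cases hn : n ∈ (x - y).support
    · have := h n hn
      rwa [Finsupp.sub_apply] at this
    · have : (x - y) n = 0 := Finsupp.notMem_support_iff.1 hn
      rw [Finsupp.sub_apply] at this
      rw [this]; simp
  · intro h n _
    rw [Finsupp.sub_apply]; exact h n

theorem natAbs_le_supDist (x y : ℕ →₀ ℤ) (n : ℕ) : ((x n - y n).natAbs : ℝ) ≤ supDist x y := by
  have h := (supDist_le_iff x y ((x - y).support.sup fun n => ((x - y) n).natAbs)).1 le_rfl n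
  unfold supDist
  exact_mod_cast h

theorem isDist_supDist : IsDist supDist where
  self x := by
    have := (supDist_le_iff x x 0).2 (fun n => by simp)
    have h2 : 0 ≤ supDist x x := Nat.cast_nonneg _
    simp only [Nat.cast_zero] at this
    linarith
  nonneg x y := Nat.cast_nonneg _
  tri x y z := by
    obtain ⟨a, ha⟩ : ∃ a : ℕ, supDist x y = a := ⟨_, rfl⟩
    obtain ⟨b, hb⟩ : ∃ b : ℕ, supDist y z = b := ⟨_, rfl⟩
    have h1 := (supDist_le_iff x y a).1 ha.le
    have h2 := (supDist_le_iff y z b).1 hb.le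
    have h3 := (supDist_le_iff x z (a + b)).2 (fun n => by
      have e : x n - z n = (x n - y n) + (y n - z n) := by ring
      rw [e]
      exact (Int.natAbs_add_le _ _).trans (Nat.add_le_add (h1 n) (h2 n)))
    rw [ha, hb]
    exact_mod_cast h3

theorem supDist_comm (x y : ℕ →₀ ℤ) : supDist x y = supDist y x := by
  apply le_antisymm
  · obtain ⟨b, hb⟩ : ∃ b : ℕ, supDist y x = b := ⟨_, rfl⟩
    rw [hb]
    refine (supDist_le_iff x y b).2 fun n => ?_
    have := (supDist_le_iff y x b).1 hb.le n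
    rwa [← Int.natAbs_neg, neg_sub] at this
  · obtain ⟨b, hb⟩ : ∃ b : ℕ, supDist x y = b := ⟨_, rfl⟩
    rw [hb]
    refine (supDist_le_iff y x b).2 fun n => ?_
    have := (supDist_le_iff x y b).1 hb.le n
    rwa [← Int.natAbs_neg, neg_sub] at this

theorem eq_of_supDist {x y : ℕ →₀ ℤ} (h : supDist x y = 0) : x = y := by
  ext n
  have := (supDist_le_iff x y 0).1 (by rw [h]; simp) n
  omega

/-- The metric space structure. -/
@[reducible] noncomputable def uMetric : MetricSpace (ℕ →₀ ℤ) where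
  dist := supDist
  dist_self := isDist_supDist.self
  dist_comm := supDist_comm
  dist_triangle := isDist_supDist.tri
  eq_of_dist_eq_zero := eq_of_supDist

theorem isDist_dist (M : Type*) [MetricSpace M] : IsDist (fun x y : M => dist x y) :=
  ⟨dist_self, fun _ _ => dist_nonneg, dist_triangle⟩

theorem natAbs_cast {z : ℤ} (h : 0 ≤ z) : ((z.natAbs : ℕ) : ℝ) = (z : ℝ) := by
  rw [← Int.cast_natCast, Int.natAbs_of_nonneg h]

/-- Approximate embedding of a finite subset of a metric space, scaled by `lam`. -/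
theorem exists_embed {M : Type*} [MetricSpace M] (F : Finset M) (a : M) (ha : a ∈ F) (lam : ℝ) (hl : 0 ≤ lam) :
    ∃ φ : M → (ℕ →₀ ℤ), φ a = 0 ∧ ∀ x ∈ F, ∀ y ∈ F, lam * dist x y ≤ supDist (φ x) (φ y) ∧
      supDist (φ x) (φ y) ≤ lam * dist x y + 1 := by
  classical
  let emb : F ↪ ℕ := ⟨fun y => (F.equivFin y : ℕ), fun y z h => F.equivFin.injective (Fin.ext h)⟩
  let g : M → F → ℤ := fun x y => ⌈lam * dist x y⌉ - ⌈lam * dist a y⌉
  let φ : M → (ℕ →₀ ℤ) := fun x => Finsupp.embDomain emb (Finsupp.equivFunOnFinite.symm (g x))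
  have hφ1 : ∀ x (y : F), φ x (emb y) = g x y := by
    intro x y
    exact (Finsupp.embDomain_apply_self emb _ y).trans rfl
  have hφ2 : ∀ x n, n ∉ Set.range emb → φ x n = 0 := by
    intro x n hn
    exact Finsupp.embDomain_of_notMem_range _ _ _ hn
  refine ⟨φ, ?_, fun x hx y hy => ⟨?_, ?_⟩⟩
  · ext n
    by_cases hn : n ∈ Set.range emb
    · obtain ⟨y, rfl⟩ := hn
      rw [hφ1]
      show ⌈lam * dist a y⌉ - ⌈lam * dist a y⌉ = _
      simp
    · rw [hφ2 _ _ hn]; rfl
  · have h1 := natAbs_le_supDist (φ x) (φ y) (emb ⟨y, hy⟩)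
    rw [hφ1, hφ1] at h1
    have h2 : g x ⟨y, hy⟩ - g y ⟨y, hy⟩ = ⌈lam * dist x y⌉ := by
      show ⌈lam * dist x y⌉ - ⌈lam * dist a y⌉ - (⌈lam * dist y y⌉ - ⌈lam * dist a y⌉) = _
      rw [dist_self, mul_zero, Int.ceil_zero]; ring
    rw [h2] at h1
    refine le_trans ?_ h1
    have h3 : (0 : ℤ) ≤ ⌈lam * dist x y⌉ := Int.ceil_nonneg (mul_nonneg hl dist_nonneg)
    rw [natAbs_cast h3]
    exact Int.le_ceil _
  · have h3 : (0 : ℤ) ≤ ⌈lam * dist x y⌉ := Int.ceil_nonneg (mul_nonneg hl dist_nonneg)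
    have h5 : supDist (φ x) (φ y) ≤ (⌈lam * dist x y⌉.natAbs : ℕ) := by
      rw [supDist_le_iff]
      intro n
      by_cases hn : n ∈ Set.range emb
      · obtain ⟨z, rfl⟩ := hn
        rw [hφ1, hφ1]
        have e : g x z - g y z = ⌈lam * dist x z⌉ - ⌈lam * dist y z⌉ := by
          show ⌈lam * dist x z⌉ - ⌈lam * dist a z⌉ - (⌈lam * dist y z⌉ - ⌈lam * dist a z⌉) = _
          ring
        rw [e]
        have t1 : ⌈lam * dist x z⌉ ≤ ⌈lam * dist x y⌉ + ⌈lam * dist y z⌉ := by
          refine le_trans (Int.ceil_mono ?_) (Int.ceil_add_le _ _)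
          rw [← mul_add]
          exact mul_le_mul_of_nonneg_left (dist_triangle _ _ _) hl
        have t2 : ⌈lam * dist y z⌉ ≤ ⌈lam * dist x y⌉ + ⌈lam * dist x z⌉ := by
          refine le_trans (Int.ceil_mono ?_) (Int.ceil_add_le _ _)
          rw [← mul_add, dist_comm x y]
          exact mul_le_mul_of_nonneg_left (dist_triangle _ _ _) hl
        omega
      · rw [hφ2 _ _ hn, hφ2 _ _ hn]; simp
    refine h5.trans ?_
    rw [natAbs_cast h3]
    exact (Int.ceil_lt_add_one _).le

end Pool.Agent.KServer
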